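import Mathlib
import Pool.Agent.H548Z.JesDefs
import Pool.Agent.H548Z.JesMain

set_option autoImplicit false

namespace Pool.Agent.Results.MP_5c297c_an.AStrictNotJessen

/-- For every `n ≥ 2` and every nonempty open convex `G` in `ℝⁿ` there is a convex function on `G`
that is affine on no nondegenerate segment of `G` and is not a Jessen function. -/
theorem result : ∀ n : ℕ, 2 ≤ n → ∀ G : Set (Fin n → ℝ), IsOpen G → Convex ℝ G → G.Nonempty →
    ∃ φ : (Fin n → ℝ) → ℝ, ConvexOn ℝ G φ ∧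
      (∀ a b : Fin n → ℝ, a ≠ b → segment ℝ a b ⊆ G →
        ¬ ∃ A : (Fin n → ℝ) →ᵃ[ℝ] ℝ, ∀ y ∈ segment ℝ a b, φ y = A y) ∧
      ¬ Pool.Agent.H548Z.JesDefs.IsJessen G φ :=
  fun _ hn G hG hGc hne => Pool.Agent.H548Z.Jes.main hn G hG hGc hne

end Pool.Agent.Results.MP_5c297c_an.AStrictNotJessen
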